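import Pool.Agent.Helper70.BI.T.StT

/-!
# Project BI, stage 6 (T), module SQR: two parametrizations of the sphere by the square
-/

set_option autoImplicit false

open scoped Topology unitInterval Manifold ContDiff ComplexConjugate
open Set Pool.Agent.Helper65.Barb Pool.Agent.Helper18.BI
open Pool.Agent.Helper18.FinR (sqr)
open Pool.Agent.Helper18.BI.R (S2)

namespace Pool.Agent.Helper70.T

namespace SQR

private theorem PP_re (ρ v : ℝ) : (PP ρ v).2.re = Real.sin (Real.pi * v) * Real.cos ρ := by
  unfold PP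
  simp only [Complex.mul_re, Complex.ofReal_re, Complex.ofReal_im, zero_mul, sub_zero]
  rw [Complex.exp_ofReal_mul_I_re]

private theorem PP_im (ρ v : ℝ) : (PP ρ v).2.im = Real.sin (Real.pi * v) * Real.sin ρ := by
  unfold PP
  simp only [Complex.mul_im, Complex.ofReal_re, Complex.ofReal_im, zero_mul, add_zero]
  rw [Complex.exp_ofReal_mul_I_im]

private theorem PP_fst (ρ v : ℝ) : (PP ρ v).1 = Real.cos (Real.pi * v) := rfl

private theorem PP_nsq (ρ v : ℝ) : nsq (PP ρ v) = 1 := by
  unfold nsq
  rw [PP_re, PP_im, PP_fst]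
  have h1 : Real.cos (Real.pi * v) ^ 2 = 1 - Real.sin (Real.pi * v) ^ 2 := Real.cos_sq' _
  have h2 : Real.cos ρ ^ 2 = 1 - Real.sin ρ ^ 2 := Real.cos_sq' _
  linear_combination h1 + Real.sin (Real.pi * v) ^ 2 * h2

private theorem PP_zero (ρ : ℝ) : PP ρ 0 = (1, 0) := by
  unfold PP
  simp

private theorem PP_one (ρ : ℝ) : PP ρ 1 = PP 0 1 := by
  unfold PP
  simp

private theorem PP_two_pi (v : ℝ) : PP (2 * Real.pi) v = PP 0 v := by
  refine Prod.ext rfl (Complex.ext ?_ ?_)
  · rw [PP_re, PP_re, Real.cos_two_pi, Real.cos_zero]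
  · rw [PP_im, PP_im, Real.sin_two_pi, Real.sin_zero]

private theorem PP_cont : Continuous fun z : ℝ × ℝ => PP z.1 z.2 := by
  unfold PP
  fun_prop

private theorem lam_cont : Continuous lam := by
  unfold lam
  fun_prop

private theorem rho_cont : Continuous rho := by
  unfold rho
  fun_prop

private theorem tau_cont : Continuous tau := by
  unfold tau
  fun_prop

private theorem rho_lo {θ : ℝ} (h : θ ≤ 1 / 3) : rho θ = 0 := by
  unfold rho
  rw [max_eq_left ((min_le_right _ _).trans (by linarith)), mul_zero]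

private theorem rho_hi {θ : ℝ} (h : 2 / 3 ≤ θ) : rho θ = 2 * Real.pi := by
  unfold rho
  rw [min_eq_left (by linarith), max_eq_right zero_le_one, mul_one]

private theorem lam_mid {θ : ℝ} (h : 1 / 3 ≤ θ) (h' : θ ≤ 2 / 3) : lam θ = 1 := by
  unfold lam
  exact min_eq_left (le_min (by linarith) (by linarith))

private theorem lam_le (θ : ℝ) : lam θ ≤ 1 := min_le_left _ _

private theorem lam_nn {θ : ℝ} (h : 0 ≤ θ) (h' : θ ≤ 1) : 0 ≤ lam θ :=
  le_min zero_le_one (le_min (by linarith) (by linarith))

private theorem tau_nn {s : ℝ} (h : 0 ≤ s) (h' : s ≤ 1) : 0 ≤ tau s :=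
  le_min (by linarith) (by linarith)

private theorem tau_le (s : ℝ) : tau s ≤ 1 := by
  unfold tau
  rcases le_total s (1 / 2) with h | h
  · exact (min_le_left _ _).trans (by linarith)
  · exact (min_le_right _ _).trans (by linarith)

private theorem tau_half : tau (1 / 2) = 1 := by
  unfold tau
  norm_num

private theorem PP_glue (θ : ℝ) : PP (rho θ) (lam θ) = PP 0 (lam θ) := by
  rcases le_total θ (1 / 3) with h | h
  · rw [rho_lo h]
  · rcases le_total θ (2 / 3) with h' | h'
    · rw [lam_mid h h', PP_one]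
    · rw [rho_hi h', PP_two_pi]

private theorem qq_cont : Continuous qq := by
  unfold qq
  refine Continuous.if_le (f := fun t : Fin 2 → I => (t 1 : ℝ)) (g := fun _ => 1 / 2) ?_ ?_
    (by fun_prop) continuous_const (fun t ht => ?_)
  · exact PP_cont.comp ((rho_cont.comp (by fun_prop)).prodMk
      ((lam_cont.comp (by fun_prop)).mul (tau_cont.comp (by fun_prop))))
  · exact PP_cont.comp (continuous_const.prodMk
      ((lam_cont.comp (by fun_prop)).mul (tau_cont.comp (by fun_prop))))
  · rw [ht, tau_half, mul_one, PP_glue]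

private theorem sqr_cont : Continuous sqr := by
  have h : Continuous fun t : Fin 2 → I =>
      ((1 - 2 * Real.sin (Real.pi * t 0) ^ 2 * Real.sin (Real.pi * t 1) ^ 2,
        Complex.equivRealProdCLM.symm
          (-(2 * Real.sin (Real.pi * t 0) * Real.sin (Real.pi * t 1) * Real.cos (Real.pi * t 1)),
          2 * Real.sin (Real.pi * t 0) * Real.cos (Real.pi * t 0) *
            Real.sin (Real.pi * t 1) ^ 2)) : ℝ × ℂ) := by
    fun_prop
  exact h

private theorem sqr_nsq (t : Fin 2 → I) : nsq (sqr t) = 1 := by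
  unfold nsq sqr
  simp only
  have h1 : Real.cos (Real.pi * t 0) ^ 2 = 1 - Real.sin (Real.pi * t 0) ^ 2 := Real.cos_sq' _
  have h2 : Real.cos (Real.pi * t 1) ^ 2 = 1 - Real.sin (Real.pi * t 1) ^ 2 := Real.cos_sq' _
  generalize Real.sin (Real.pi * t 0) = a at *
  generalize Real.sin (Real.pi * t 1) = b at *
  linear_combination (4 * a ^ 2 * b ^ 4) * h1 + (4 * a ^ 2 * b ^ 2) * h2

private theorem qq_nsq (t : Fin 2 → I) : nsq (qq t) = 1 := by
  unfold qq
  split_ifs <;> exact PP_nsq _ _

private theorem qq_bd {t : Fin 2 → I} (ht : t ∈ Cube.boundary (Fin 2)) : qq t = (1, 0) := by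
  have h0 : lam (t 0) * tau (t 1) = 0 := by
    obtain ⟨i, hi⟩ := ht
    fin_cases i
    · rcases hi with hi | hi
      · have : ((t 0 : I) : ℝ) = 0 := by
          have := congrArg Subtype.val hi
          simpa using this
        rw [this]; unfold lam; norm_num
      · have : ((t 0 : I) : ℝ) = 1 := by
          have := congrArg Subtype.val hi
          simpa using this
        rw [this]; unfold lam; norm_num
    · rcases hi with hi | hi
      · have : ((t 1 : I) : ℝ) = 0 := by
          have := congrArg Subtype.val hi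
          simpa using this
        rw [this]; unfold tau; norm_num
      · have : ((t 1 : I) : ℝ) = 1 := by
          have := congrArg Subtype.val hi
          simpa using this
        rw [this]; unfold tau; norm_num
  unfold qq
  rw [h0, PP_zero, PP_zero, ite_self]

private theorem sqr_bd {t : Fin 2 → I} (ht : t ∈ Cube.boundary (Fin 2)) : sqr t = (1, 0) := by
  have h0 : Real.sin (Real.pi * t 0) = 0 ∨ Real.sin (Real.pi * t 1) = 0 := by
    obtain ⟨i, hi⟩ := ht
    fin_cases i
    · left
      rcases hi with hi | hi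
      · have : ((t 0 : I) : ℝ) = 0 := by
          have := congrArg Subtype.val hi
          simpa using this
        rw [this, mul_zero, Real.sin_zero]
      · have : ((t 0 : I) : ℝ) = 1 := by
          have := congrArg Subtype.val hi
          simpa using this
        rw [this, mul_one, Real.sin_pi]
    · right
      rcases hi with hi | hi
      · have : ((t 1 : I) : ℝ) = 0 := by
          have := congrArg Subtype.val hi
          simpa using this
        rw [this, mul_zero, Real.sin_zero]
      · have : ((t 1 : I) : ℝ) = 1 := by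
          have := congrArg Subtype.val hi
          simpa using this
        rw [this, mul_one, Real.sin_pi]
  unfold sqr
  rcases h0 with h | h
  · rw [h]
    refine Prod.ext (by simp) (Complex.ext (by simp) (by simp))
  · rw [h]
    refine Prod.ext (by simp) (Complex.ext (by simp) (by simp))

/-- the two parametrizations agree on the middle line -/
private theorem mid {t : Fin 2 → I} (ht : (t 0 : ℝ) = 1 / 2) : qq t = sqr t := by
  have hr : rho (1 / 2) = Real.pi := by
    unfold rho
    norm_num
    ring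
  have hl : lam (1 / 2) = 1 := lam_mid (by norm_num) (by norm_num)
  have hc : Real.cos (Real.pi * (2 * t 1)) = 1 - 2 * Real.sin (Real.pi * t 1) ^ 2 := by
    rw [show Real.pi * (2 * (t 1 : ℝ)) = 2 * (Real.pi * t 1) by ring, Real.cos_two_mul,
      Real.cos_sq']
    ring
  have hs : Real.sin (Real.pi * (2 * t 1)) =
      2 * Real.sin (Real.pi * t 1) * Real.cos (Real.pi * t 1) := by
    rw [show Real.pi * (2 * (t 1 : ℝ)) = 2 * (Real.pi * t 1) by ring, Real.sin_two_mul]
  have e1 : Real.sin (Real.pi * (1 / 2)) = 1 := by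
    rw [mul_one_div, Real.sin_pi_div_two]
  have e2 : Real.cos (Real.pi * (1 / 2)) = 0 := by
    rw [mul_one_div, Real.cos_pi_div_two]
  have hsq : sqr t = (Real.cos (Real.pi * (2 * t 1)), ⟨-Real.sin (Real.pi * (2 * t 1)), 0⟩) := by
    unfold sqr
    rw [ht, e1, e2, hc, hs]
    refine Prod.ext (by simp) (Complex.ext ?_ ?_)
    · simp
    · simp
  rw [hsq]
  unfold qq
  rw [ht, hr, hl, one_mul]
  split_ifs with h
  · have ht1 : tau (t 1) = 2 * t 1 := by
      unfold tau
      exact min_eq_left (by linarith)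
    rw [ht1]
    refine Prod.ext rfl (Complex.ext ?_ ?_)
    · rw [PP_re, Real.cos_pi]
      simp
    · rw [PP_im, Real.sin_pi]
      simp
  · have ht1 : tau (t 1) = 2 - 2 * t 1 := by
      unfold tau
      exact min_eq_right (by linarith)
    have e : Real.pi * (2 - 2 * (t 1 : ℝ)) = 2 * Real.pi - Real.pi * (2 * t 1) := by ring
    rw [ht1]
    refine Prod.ext ?_ (Complex.ext ?_ ?_)
    · rw [PP_fst, e, Real.cos_two_pi_sub]
    · rw [PP_re, e, Real.sin_two_pi_sub, Real.cos_zero]
      simp
    · rw [PP_im, Real.sin_zero]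
      simp

private theorem qq_im (t : Fin 2 → I) : (qq t).2.im =
    (if (t 1 : ℝ) ≤ 1 / 2 then Real.sin (Real.pi * (lam (t 0) * tau (t 1))) * Real.sin (rho (t 0))
      else 0) := by
  unfold qq
  split_ifs with h
  · rw [PP_im]
  · rw [PP_im, Real.sin_zero, mul_zero]

private theorem sin_lt_nn (t : Fin 2 → I) :
    0 ≤ Real.sin (Real.pi * (lam (t 0) * tau (t 1))) := by
  have h0 := (t 0).2.1
  have h1 := (t 0).2.2
  have h2 := (t 1).2.1
  have h3 := (t 1).2.2
  have hl := lam_nn h0 h1
  have ht := tau_nn h2 h3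
  have hm : lam (t 0) * tau (t 1) ≤ 1 := by
    have := mul_le_mul (lam_le (t 0)) (tau_le (t 1)) ht zero_le_one
    simpa using this
  refine Real.sin_nonneg_of_nonneg_of_le_pi (mul_nonneg Real.pi_pos.le (mul_nonneg hl ht)) ?_
  have := mul_le_mul_of_nonneg_left hm Real.pi_pos.le
  simpa using this

/-- the two parametrizations are never antipodal -/
private theorem not_anti (t : Fin 2 → I) (h1 : (qq t).1 = -(sqr t).1)
    (h2 : (qq t).2.re = -(sqr t).2.re) (h3 : (qq t).2.im = -(sqr t).2.im) : False := by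
  have heq : qq t = sqr t → False := by
    intro h
    have hn := sqr_nsq t
    rw [h] at h1 h2 h3
    unfold nsq at hn
    have a1 : (sqr t).1 = 0 := by linarith
    have a2 : (sqr t).2.re = 0 := by linarith
    have a3 : (sqr t).2.im = 0 := by linarith
    rw [a1, a2, a3] at hn
    norm_num at hn
  have hnb : t ∉ Cube.boundary (Fin 2) := by
    intro hb
    exact heq ((qq_bd hb).trans (sqr_bd hb).symm)
  have hcoord : ∀ i, 0 < (t i : ℝ) ∧ (t i : ℝ) < 1 := by
    intro i
    constructor
    · refine lt_of_le_of_ne (t i).2.1 fun h => hnb ⟨i, Or.inl (Subtype.ext h.symm)⟩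
    · refine lt_of_le_of_ne (t i).2.2 fun h => hnb ⟨i, Or.inr (Subtype.ext h)⟩
  obtain ⟨p0, p1⟩ := hcoord 0
  obtain ⟨q0, q1⟩ := hcoord 1
  have hb : 0 < Real.sin (Real.pi * t 1) := by
    refine Real.sin_pos_of_pos_of_lt_pi (mul_pos Real.pi_pos q0) ?_
    have := mul_lt_mul_of_pos_left q1 Real.pi_pos
    simpa using this
  have ha : 0 < Real.sin (Real.pi * t 0) := by
    refine Real.sin_pos_of_pos_of_lt_pi (mul_pos Real.pi_pos p0) ?_
    have := mul_lt_mul_of_pos_left p1 Real.pi_pos
    simpa using this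
  have him : (sqr t).2.im =
      2 * Real.sin (Real.pi * t 0) * Real.cos (Real.pi * t 0) * Real.sin (Real.pi * t 1) ^ 2 := rfl
  have hr1 : 0 ≤ rho (t 0) := by
    unfold rho
    have : (0 : ℝ) ≤ max 0 (min 1 (3 * (t 0 : ℝ) - 1)) := le_max_left _ _
    have := Real.pi_pos
    positivity
  have hr2 : rho (t 0) ≤ 2 * Real.pi := by
    unfold rho
    have h : max 0 (min 1 (3 * (t 0 : ℝ) - 1)) ≤ 1 := max_le zero_le_one (min_le_left _ _)
    have := mul_le_mul_of_nonneg_left h (by have := Real.pi_pos; positivity : 0 ≤ 2 * Real.pi)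
    simpa using this
  rcases lt_trichotomy (t 0 : ℝ) (1 / 2) with h | h | h
  · have hA : 0 < Real.cos (Real.pi * t 0) := by
      refine Real.cos_pos_of_mem_Ioo ⟨?_, ?_⟩
      · have := mul_pos Real.pi_pos p0
        have := Real.pi_pos
        linarith
      · have := mul_lt_mul_of_pos_left h Real.pi_pos
        linarith
    have hpos : 0 < (sqr t).2.im := by rw [him]; positivity
    have hr3 : rho (t 0) ≤ Real.pi := by
      unfold rho
      have h : max 0 (min 1 (3 * (t 0 : ℝ) - 1)) ≤ 1 / 2 :=
        max_le (by norm_num) ((min_le_right _ _).trans (by linarith))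
      have := mul_le_mul_of_nonneg_left h (by have := Real.pi_pos; positivity : 0 ≤ 2 * Real.pi)
      linarith
    have hq : 0 ≤ (qq t).2.im := by
      rw [qq_im]
      split_ifs
      · exact mul_nonneg (sin_lt_nn t) (Real.sin_nonneg_of_nonneg_of_le_pi hr1 hr3)
      · exact le_rfl
    linarith
  · exact heq (mid h)
  · have hA : Real.cos (Real.pi * t 0) < 0 := by
      refine Real.cos_neg_of_pi_div_two_lt_of_lt ?_ ?_
      · have := mul_lt_mul_of_pos_left h Real.pi_pos
        linarith
      · have := mul_lt_mul_of_pos_left p1 Real.pi_pos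
        have := Real.pi_pos
        linarith
    have hneg : (sqr t).2.im < 0 := by
      rw [him]
      have h1 : 2 * Real.sin (Real.pi * t 0) * Real.cos (Real.pi * t 0) < 0 :=
        mul_neg_of_pos_of_neg (by positivity) hA
      exact mul_neg_of_neg_of_pos h1 (by positivity)
    have hr3 : Real.pi ≤ rho (t 0) := by
      unfold rho
      have h : 1 / 2 ≤ max 0 (min 1 (3 * (t 0 : ℝ) - 1)) :=
        (le_min (by norm_num) (by linarith)).trans (le_max_right _ _)
      have := mul_le_mul_of_nonneg_left h (by have := Real.pi_pos; positivity : 0 ≤ 2 * Real.pi)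
      linarith
    have hsr : Real.sin (rho (t 0)) ≤ 0 := by
      have h5 : Real.sin (rho (t 0)) = Real.sin (rho (t 0) - 2 * Real.pi) :=
        (Real.sin_sub_two_pi _).symm
      rw [h5]
      exact Real.sin_nonpos_of_nonpos_of_neg_pi_le (by linarith) (by linarith)
    have hq : (qq t).2.im ≤ 0 := by
      rw [qq_im]
      split_ifs
      · exact mul_nonpos_of_nonneg_of_nonpos (sin_lt_nn t) hsr
      · exact le_rfl
    linarith

/-- the linear homotopy -/
private noncomputable def vv (z : ℝ × (Fin 2 → I)) : ℝ × ℂ := (1 - z.1) • qq z.2 + z.1 • sqr z.2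

private theorem vv_cont : Continuous vv := by
  unfold vv
  exact ((continuous_const.sub continuous_fst).smul (qq_cont.comp continuous_snd)).add
    (continuous_fst.smul (sqr_cont.comp continuous_snd))

private theorem vv_pos {u : ℝ} (hu : u ∈ Icc (0 : ℝ) 1) (t : Fin 2 → I) : 0 < nsq (vv (u, t)) := by
  have n1 := qq_nsq t
  have n2 := sqr_nsq t
  have hna := not_anti t
  have hv : nsq (vv (u, t)) = ((1 - u) * (qq t).1 + u * (sqr t).1) ^ 2 +
      ((1 - u) * (qq t).2.re + u * (sqr t).2.re) ^ 2 +
      ((1 - u) * (qq t).2.im + u * (sqr t).2.im) ^ 2 := by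
    unfold nsq vv
    simp only [Prod.fst_add, Prod.snd_add, Prod.smul_fst, Prod.smul_snd, Complex.add_re,
      Complex.add_im, Complex.smul_re, Complex.smul_im, smul_eq_mul]
  rw [hv]
  unfold nsq at n1 n2
  generalize (qq t).1 = a at *
  generalize (qq t).2.re = b at *
  generalize (qq t).2.im = c at *
  generalize (sqr t).1 = a' at *
  generalize (sqr t).2.re = b' at *
  generalize (sqr t).2.im = c' at *
  have hs : 0 < (a + a') ^ 2 + (b + b') ^ 2 + (c + c') ^ 2 := by
    by_contra h
    have h1 : (a + a') ^ 2 = 0 := by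
      nlinarith [sq_nonneg (a + a'), sq_nonneg (b + b'), sq_nonneg (c + c')]
    have h2 : (b + b') ^ 2 = 0 := by
      nlinarith [sq_nonneg (a + a'), sq_nonneg (b + b'), sq_nonneg (c + c')]
    have h3 : (c + c') ^ 2 = 0 := by
      nlinarith [sq_nonneg (a + a'), sq_nonneg (b + b'), sq_nonneg (c + c')]
    have h1' : a + a' = 0 := pow_eq_zero_iff (two_ne_zero) |>.mp h1
    have h2' : b + b' = 0 := pow_eq_zero_iff (two_ne_zero) |>.mp h2
    have h3' : c + c' = 0 := pow_eq_zero_iff (two_ne_zero) |>.mp h3
    exact hna (by linarith) (by linarith) (by linarith)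
  have hid : ((1 - u) * a + u * a') ^ 2 + ((1 - u) * b + u * b') ^ 2 +
      ((1 - u) * c + u * c') ^ 2 =
      (1 - 2 * u) ^ 2 + (u * (1 - u)) * ((a + a') ^ 2 + (b + b') ^ 2 + (c + c') ^ 2) := by
    linear_combination ((1 - u) ^ 2 - u * (1 - u)) * n1 + (u ^ 2 - u * (1 - u)) * n2
  rw [hid]
  rcases eq_or_lt_of_le hu.1 with h0 | h0
  · rw [← h0]; norm_num
  · rcases eq_or_lt_of_le hu.2 with h1 | h1
    · rw [h1]; norm_num
    · have : 0 < u * (1 - u) := mul_pos h0 (by linarith)
      have h5 := mul_pos this hs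
      have h6 := sq_nonneg (1 - 2 * u)
      linarith

private theorem nsq_cont : Continuous nsq := by
  unfold nsq
  fun_prop

private theorem nsq_smul' (c : ℝ) (x : ℝ × ℂ) : nsq (c • x) = c ^ 2 * nsq x := by
  unfold nsq
  simp only [Prod.smul_fst, Prod.smul_snd, Complex.smul_re, Complex.smul_im, smul_eq_mul]
  ring

end SQR

open SQR in
theorem m_SQR : StSQR := by
  refine ⟨fun z => (√(nsq (vv z)))⁻¹ • vv z, ?_, ?_, ?_, ?_, ?_⟩
  · have h1 : ContinuousOn (fun z : ℝ × (Fin 2 → I) => (√(nsq (vv z)))⁻¹)
        (Icc (0 : ℝ) 1 ×ˢ univ) := by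
      refine ContinuousOn.inv₀ (nsq_cont.comp vv_cont).sqrt.continuousOn ?_
      rintro ⟨u, t⟩ ⟨hu, -⟩
      exact (Real.sqrt_pos.mpr (vv_pos hu t)).ne'
    exact h1.smul vv_cont.continuousOn
  · intro u hu t
    show nsq _ = 1
    have h := vv_pos hu t
    rw [nsq_smul', inv_pow, Real.sq_sqrt h.le, inv_mul_cancel₀ h.ne']
  · intro t
    have h : vv (0, t) = qq t := by
      unfold vv
      simp
    simp only [h, qq_nsq, Real.sqrt_one, inv_one, one_smul]
  · intro t
    have h : vv (1, t) = sqr t := by
      unfold vv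
      simp
    simp only [h, sqr_nsq, Real.sqrt_one, inv_one, one_smul]
  · intro u hu t ht
    have h : vv (u, t) = (1, 0) := by
      unfold vv
      simp only
      rw [qq_bd ht, sqr_bd ht, ← add_smul, sub_add_cancel, one_smul]
    have h2 : nsq ((1, 0) : ℝ × ℂ) = 1 := by
      unfold nsq
      simp
    simp only [h, h2, Real.sqrt_one, inv_one, one_smul]

end Pool.Agent.Helper70.T
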